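import Pool.Agent.Helper95.HV.Stmts

/-!
# Row FINZ
-/

set_option autoImplicit false

namespace Pool.Agent.Helper85.HV

open MeasureTheory Filter Pool.Agent.Helper95.PW Pool.Agent.Helper95.LN Pool.Agent.Helper95.CF
open Pool.Agent.Helper95.HV

theorem FINZ (h1 : Pool.Agent.Helper95.HV.ST_SUMZ) (h2 : Pool.Agent.Helper95.HV.ST_TLZ) :
    Pool.Agent.Helper95.HV.ST_FINZ := by
  intro d κ hd hκ
  have hd' : 0 < min d 1 := lt_min hd one_pos
  have hd1 : min d 1 ≤ 1 := min_le_right _ _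
  obtain ⟨C, hC, hs⟩ := h1 (min d 1) hd' hd1
  obtain ⟨c, z0, hc, hz0, ht⟩ := h2 (min d 1) κ hd' hd1 hκ
  set K : ℝ := C / (3 * c) with hK
  have hK0 : 0 < K := by positivity
  refine ⟨max z0 (K ^ 15), hz0.trans (le_max_left _ _), ?_⟩
  intro z E n M X Z φ G hX hn hZ hκZ hM hz hlog hG
  have hz1 : z0 ≤ z := (le_max_left _ _).trans hz
  have hzK : K ^ 15 ≤ z := (le_max_right _ _).trans hz
  have h1z : 1 ≤ z := hz0.trans hz1
  have hz00 : 0 < z := lt_of_lt_of_le one_pos h1z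
  have hD : Dat (min d 1) z n X (fun j => (Z j : ℝ)) :=
    ⟨hd', hd1, h1z, fun i j hij => le_trans (by linarith [min_le_left d 1]) (hX i j hij), hn, hZ⟩
  obtain ⟨hE, hk⟩ := ht z E n M X Z φ G hD hM hz1 hκZ hG
  have hm := hs z E n M X (fun j => (Z j : ℝ)) φ G hD hM hE hG hlog
  have hKz : K ≤ z ^ (1 / 15 : ℝ) := by
    have h3 : (K ^ 15) ^ (1 / 15 : ℝ) = K := by
      rw [← Real.rpow_natCast, ← Real.rpow_mul hK0.le]
      norm_num
    rw [← h3]
    exact Real.rpow_le_rpow (by positivity) hzK (by norm_num)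
  have h4 : z ^ (7 / 3 : ℝ) = z ^ (34 / 15 : ℝ) * z ^ (1 / 15 : ℝ) := by
    rw [← Real.rpow_add hz00]
    norm_num
  have hMz : (0 : ℝ) ≤ (M : ℝ) * z ^ (34 / 15 : ℝ) := by positivity
  have hCK : C = 3 * c * K := by
    rw [hK]
    field_simp
  calc mom G ≤ C * (M * z ^ (34 / 15 : ℝ)) := hm
    _ = 3 * c * (M * z ^ (34 / 15 : ℝ)) * K := by rw [hCK]; ring
    _ ≤ 3 * c * (M * z ^ (34 / 15 : ℝ)) * z ^ (1 / 15 : ℝ) :=
        mul_le_mul_of_nonneg_left hKz (by positivity)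
    _ = 3 * (c * (M * z ^ (7 / 3 : ℝ))) := by rw [h4]; ring
    _ ≤ 3 * kinG G := by linarith

end Pool.Agent.Helper85.HV
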